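import Pool.Agent.Helper27.VF.Goals

set_option autoImplicit false

/-!
# VF-HAL: Marshall Hall's theorem (weak form)
-/

namespace Pool.Agent.Helper93.VF

theorem exists_perm {Δ : Type*} [Finite Δ] (p : Δ → Prop) (g : {x // p x} → Δ)
    (hg : Function.Injective g) : ∃ σ : Equiv.Perm Δ, ∀ x : {x // p x}, σ x = g x := by
  classical
  have := Fintype.ofFinite Δ
  let e : {x // p x} ≃ {y // y ∈ Set.range g} := Equiv.ofInjective g hg
  exact ⟨e.extendSubtype, fun x => e.extendSubtype_apply_of_mem _ x.2⟩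

theorem mk_cons {α : Type*} (a : α) (b : Bool) (L : List (α × Bool)) :
    (FreeGroup.mk ((a, b) :: L) : FreeGroup α) =
      (cond b (FreeGroup.of a) (FreeGroup.of a)⁻¹) * FreeGroup.mk L := by
  cases b
  · change _ = (FreeGroup.mk [(a, true)])⁻¹ * FreeGroup.mk L
    rw [FreeGroup.inv_mk, FreeGroup.mul_mk]
    rfl
  · change _ = (FreeGroup.mk [(a, true)]) * FreeGroup.mk L
    rw [FreeGroup.mul_mk]
    rfl

theorem hal (n : ℕ) (B : Subgroup (FreeGroup (Fin n))) (hB : B.FG) (hne : B ≠ ⊤) :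
    ∃ L : Subgroup (FreeGroup (Fin n)), B ≤ L ∧ L ≠ ⊤ ∧ L.FiniteIndex := by
  classical
  obtain ⟨T, hT⟩ := hB
  obtain ⟨x, hx⟩ : ∃ x, x ∉ B := by
    by_contra h
    push Not at h
    exact hne (eq_top_iff.2 fun y _ => h y)
  let Q := FreeGroup (Fin n) ⧸ B
  let D : Finset Q := (insert x T).biUnion fun t =>
    (t.toWord.tails.map fun L => ((FreeGroup.mk L : FreeGroup (Fin n)) : Q)).toFinset
  have hD : ∀ t ∈ insert x T, ∀ L, L <:+ t.toWord → ((FreeGroup.mk L : FreeGroup (Fin n)) : Q) ∈ D := by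
    intro t ht L hL
    refine Finset.mem_biUnion.2 ⟨t, ht, ?_⟩
    rw [List.mem_toFinset, List.mem_map]
    exact ⟨L, (List.mem_tails _ _).2 hL, rfl⟩
  have ho : ((1 : FreeGroup (Fin n)) : Q) ∈ D := hD x (Finset.mem_insert_self _ _) [] List.nil_suffix
  have hσ : ∀ j : Fin n, ∃ σ : Equiv.Perm D, ∀ d : D, ∀ h : (FreeGroup.of j) • (d : Q) ∈ D,
      σ d = ⟨(FreeGroup.of j) • (d : Q), h⟩ := by
    intro j
    obtain ⟨σ, h⟩ := exists_perm (Δ := D) (fun d => (FreeGroup.of j) • (d : Q) ∈ D)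
      (fun d => ⟨(FreeGroup.of j) • (d.1 : Q), d.2⟩) (by
        intro d e hde
        have h1 := congrArg Subtype.val hde
        have h2 := MulAction.injective (FreeGroup.of j) h1
        exact Subtype.ext (Subtype.ext h2))
    exact ⟨σ, fun d hd => h ⟨d, hd⟩⟩
  choose σ hσ using hσ
  let φ : FreeGroup (Fin n) →* Equiv.Perm D := FreeGroup.lift σ
  have key : ∀ L : List (Fin n × Bool), (∀ L', L' <:+ L → ((FreeGroup.mk L' : FreeGroup (Fin n)) : Q) ∈ D) →
      (φ (FreeGroup.mk L) ⟨_, ho⟩ : Q) = ((FreeGroup.mk L : FreeGroup (Fin n)) : Q) := by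
    intro L
    induction L with
    | nil =>
      intro _
      have : (FreeGroup.mk [] : FreeGroup (Fin n)) = 1 := rfl
      rw [this, map_one]
      rfl
    | cons c L ih =>
      intro hL
      have ih' := ih fun L' hL' => hL L' (hL'.trans (List.suffix_cons _ _))
      obtain ⟨a, b⟩ := c
      have h1 : ((FreeGroup.mk L : FreeGroup (Fin n)) : Q) ∈ D := hL L (List.suffix_cons _ _)
      have h2 : ((FreeGroup.mk ((a, b) :: L) : FreeGroup (Fin n)) : Q) ∈ D := hL _ List.suffix_rfl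
      have ih2 : φ (FreeGroup.mk L) ⟨_, ho⟩ = ⟨_, h1⟩ := Subtype.ext ih'
      rw [mk_cons] at h2 ⊢
      rw [map_mul, Equiv.Perm.mul_apply, ih2]
      cases b with
      | true =>
        simp only [cond_true] at h2 ⊢
        have h3 : (FreeGroup.of a) • (((FreeGroup.mk L : FreeGroup (Fin n)) : Q)) ∈ D := h2
        have h4 : φ (FreeGroup.of a) = σ a := FreeGroup.lift_apply_of
        rw [h4, hσ a ⟨_, h1⟩ h3]
        rfl
      | false =>
        simp only [cond_false] at h2 ⊢
        have h4 : φ (FreeGroup.of a) = σ a := FreeGroup.lift_apply_of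
        rw [map_inv, h4]
        have h5 : (FreeGroup.of a) • ((((FreeGroup.of a)⁻¹ * FreeGroup.mk L : FreeGroup (Fin n))) : Q) =
            ((FreeGroup.mk L : FreeGroup (Fin n)) : Q) := by
          change (((FreeGroup.of a) * ((FreeGroup.of a)⁻¹ * FreeGroup.mk L) : FreeGroup (Fin n)) : Q) = _
          rw [mul_inv_cancel_left]
        have h6 := hσ a ⟨_, h2⟩ (by rw [h5]; exact h1)
        have h7 : σ a ⟨_, h2⟩ = ⟨_, h1⟩ := by
          rw [h6]
          exact Subtype.ext h5
        rw [← h7]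
        change (((σ a).symm (σ a ⟨_, h2⟩) : D) : Q) = _
        rw [Equiv.symm_apply_apply]
  let L := (MulAction.stabilizer (Equiv.Perm D) (⟨_, ho⟩ : D)).comap φ
  have hL : ∀ t, t ∈ L ↔ φ t ⟨_, ho⟩ = ⟨_, ho⟩ := fun t => Iff.rfl
  have key2 : ∀ t ∈ insert x T, (φ t ⟨_, ho⟩ : Q) = (t : Q) := by
    intro t ht
    have := key t.toWord (hD t ht)
    rwa [FreeGroup.mk_toWord] at this
  refine ⟨L, ?_, ?_, ?_⟩
  · rw [← hT, Subgroup.closure_le]
    intro t ht
    rw [SetLike.mem_coe, hL]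
    apply Subtype.ext
    rw [key2 t (Finset.mem_insert_of_mem ht)]
    have ht' : t ∈ B := by rw [← hT]; exact Subgroup.subset_closure ht
    refine QuotientGroup.eq.2 ?_
    rw [mul_one]
    exact B.inv_mem ht'
  · intro h
    have hxL : x ∈ L := by rw [h]; trivial
    rw [hL] at hxL
    have h1 := congrArg Subtype.val hxL
    rw [key2 x (Finset.mem_insert_self _ _)] at h1
    apply hx
    have h2 := QuotientGroup.eq.1 h1.symm
    simpa using h2
  · refine ⟨?_⟩
    change ((MulAction.stabilizer (Equiv.Perm D) (⟨_, ho⟩ : D)).comap φ).index ≠ 0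
    rw [Subgroup.index_comap]
    exact Subgroup.FiniteIndex.index_ne_zero
      (H := (MulAction.stabilizer (Equiv.Perm D) (⟨_, ho⟩ : D)).subgroupOf φ.range)

theorem HAL : Pool.Agent.Helper27.VF.HalStmt := hal

end Pool.Agent.Helper93.VF
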